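import Pool.Agent.H126R2.CDC.Main

set_option autoImplicit false

/-!
# Cyclic 4-edge-cuts in smallest counterexamples to the circuit double cover conjecture

The question is settled through the circuit double cover theorem proved in the starting library
`Pool.Agent.H126R2.CDC` (a nowhere-zero flow over the group of order eight lifts to a flow whose
values have quadratic form one in dimension six; these values are the pairs of eight classes).
So there is no counterexample, and no smallest one has a cyclic 4-edge-cut.
-/

namespace Pool.Agent.Results.MP_b1bfa0_co.NoCyclicFourCut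

open Finset
open Pool.Agent.H126R2.CDC (MGraph)

variable {V E : Type} [Fintype V] [DecidableEq V] [Fintype E] [DecidableEq E]

/-- `G` is a counterexample to the circuit double cover conjecture: every edge of `G` lies on a
circuit, but `G` has no circuit double cover. -/
def Counterexample (G : MGraph V E) : Prop := G.Bridgeless ∧ ¬ ∃ F : Multiset (Finset E), G.IsCDC F

/-- `G` is a counterexample for which `|V(G)| + |E(G)|` is as small as possible among all
counterexamples. -/
def SmallestCounterexample (G : MGraph V E) : Prop :=
  Counterexample G ∧
    ∀ (V' E' : Type) [Fintype V'] [DecidableEq V'] [Fintype E'] [DecidableEq E']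
      (G' : MGraph V' E'), Counterexample G' →
      Fintype.card V + Fintype.card E ≤ Fintype.card V' + Fintype.card E'

/-- The edges of `G` with one end in `X` and one end outside `X`. -/
def cut (G : MGraph V E) (X : Finset V) : Finset E :=
  univ.filter fun e => (∃ x ∈ G.ends e, x ∈ X) ∧ ∃ y ∈ G.ends e, y ∉ X

/-- `u` and `v` lie in the same component of `G - T`. -/
def SameComponent (G : MGraph V E) (T : Finset E) (u v : V) : Prop :=
  Relation.ReflTransGen (fun x y => ∃ e, e ∉ T ∧ G.ends e = s(x, y)) u v

/-- At least two components of `G - T` contain a circuit: there are circuits `C` and `D` of `G`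
avoiding `T` and vertices `u` of `C` and `v` of `D` in different components of `G - T`. -/
def IsCyclic (G : MGraph V E) (T : Finset E) : Prop :=
  ∃ C D : Finset E, G.IsCircuit C ∧ G.IsCircuit D ∧ Disjoint C T ∧ Disjoint D T ∧
    ∃ u v, (∃ e ∈ C, u ∈ G.ends e) ∧ (∃ f ∈ D, v ∈ G.ends f) ∧ ¬ SameComponent G T u v

/-- Every finite graph (loops and parallel edges allowed) in which every edge lies on a circuit has
a circuit double cover; and no smallest counterexample to this assertion has a nonempty proper
vertex set `X` such that the edges leaving `X` form a cyclic edge-cut with exactly four edges. -/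
theorem result :
    (∀ (V E : Type) [Fintype V] [DecidableEq V] [Fintype E] [DecidableEq E] (G : MGraph V E),
      G.Bridgeless → ∃ F : Multiset (Finset E), G.IsCDC F) ∧
    ∀ (V E : Type) [Fintype V] [DecidableEq V] [Fintype E] [DecidableEq E] (G : MGraph V E),
      SmallestCounterexample G →
      ¬ ∃ X : Finset V, X.Nonempty ∧ X ≠ univ ∧ (cut G X).card = 4 ∧ IsCyclic G (cut G X) := by
  refine ⟨fun V E _ _ _ _ G hG => G.exists_cdc hG, ?_⟩
  intro V E _ _ _ _ G hG _
  exact hG.1.2 (G.exists_cdc hG.1.1)

end Pool.Agent.Results.MP_b1bfa0_co.NoCyclicFourCut
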